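import Pool.Agent.Helper69_AT2.Teb3

/-!
# Squad AT2, row TEB, part 4: conjugation, and the theorem
-/

open scoped BigOperators

noncomputable section

namespace Pool.Agent.PP.T2.H69

open Pool.Agent.Helper51_AWC Pool.Agent.Helper79_WRA Pool.Agent.PP Pool.Agent.PP.KF
open Pool.Agent.PP.K9 Pool.Agent.PP.K9.H97 Pool.Agent.PP.H75 Pool.Agent.PP.T3

attribute [local instance] Ideal.Quotient.field

section yq

variable {F G A : Type} [Field F] [Group G] [Finite G] [Group A] [Finite A]
variable {ℓ : ℕ} {U Q : Subgroup G} {f : G → F}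

omit [Finite G] in
theorem Q'_le {g : G} (hg : Bt U Q g) : conjS g⁻¹ Q ≤ Subgroup.normalizer (U : Set G) := by
  intro x hx
  rw [H62.mem_conjS] at hx
  have h1 := (mem_conjX g _).1 (Q_le hg hx)
  have e : g⁻¹ * (g⁻¹⁻¹ * x * g⁻¹) * g = x := by group
  rwa [e] at h1

omit [Finite G] in
theorem mem_NX {g : G} (hg : Bt U Q g) (x : Subgroup.normalizer (U : Set G)) :
    x ∈ Subgroup.normalizer (((conjS g⁻¹ Q).subgroupOf (Subgroup.normalizer (U : Set G)) :
      Subgroup (Subgroup.normalizer (U : Set G))) : Set (Subgroup.normalizer (U : Set G))) ↔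
      g * x * g⁻¹ ∈ Subgroup.normalizer (Q : Set G) := by
  rw [← norm_sub (Q'_le hg), Subgroup.mem_subgroupOf, Subgroup.mem_inf, H62.mem_norm_conjS,
    inv_inv]
  exact ⟨fun h => h.1, fun h => ⟨h, x.2⟩⟩

/-- conjugation with `g` -/
def io {g : G} (hg : Bt U Q g) :
    Subgroup.normalizer (((conjS g⁻¹ Q).subgroupOf (Subgroup.normalizer (U : Set G)) :
      Subgroup (Subgroup.normalizer (U : Set G))) : Set (Subgroup.normalizer (U : Set G))) →*
      Subgroup.normalizer (Q : Set G) where
  toFun x := ⟨g * ((x : Subgroup.normalizer (U : Set G)) : G) * g⁻¹, (mem_NX hg _).1 x.2⟩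
  map_one' := by
    apply Subtype.ext
    show g * 1 * g⁻¹ = 1
    group
  map_mul' x y := by
    apply Subtype.ext
    show g * (((x : Subgroup.normalizer (U : Set G)) : G) *
      ((y : Subgroup.normalizer (U : Set G)) : G)) * g⁻¹ = _
    simp only [Subgroup.coe_mul]
    group

omit [Finite G] in
theorem io_coe {g : G} (hg : Bt U Q g) (x) : ((io hg x : Subgroup.normalizer (Q : Set G)) : G) =
    g * ((x : Subgroup.normalizer (U : Set G)) : G) * g⁻¹ := rfl

omit [Finite G] in
theorem io_inj {g : G} (hg : Bt U Q g) : Function.Injective (io hg) := by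
  intro x y hxy
  have h1 := congrArg Subtype.val hxy
  rw [io_coe, io_coe] at h1
  exact Subtype.ext (Subtype.ext (mul_left_cancel (mul_right_cancel h1)))

/-- TEB for one `g` -/
theorem En.yq (h : En ℓ U Q f) (p : Subgroup.normalizer (Q : Set G) →* A)
    (hker : p.ker = Q.subgroupOf (Subgroup.normalizer (Q : Set G))) {g : G} (hg : Bt U Q g) :
    YY ℓ (⊤ : Subgroup (Ag p U g)) (fun t : Ag p U g => Pg p f g t) =
      YQ ℓ (fun t : Subgroup.normalizer (U : Set G) => f t)
        ((conjS g⁻¹ Q).subgroupOf (Subgroup.normalizer (U : Set G))) := by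
  classical
  have hpk : ∀ n : Subgroup.normalizer (Q : Set G), p n = 1 ↔ (n : G) ∈ Q := by
    intro n
    rw [← MonoidHom.mem_ker, hker, Subgroup.mem_subgroupOf]
  have hQ' : ∀ x : Subgroup.normalizer (U : Set G),
      x ∈ (conjS g⁻¹ Q).subgroupOf (Subgroup.normalizer (U : Set G)) ↔
        g * (x : G) * g⁻¹ ∈ Q := by
    intro x
    rw [Subgroup.mem_subgroupOf, H62.mem_conjS, inv_inv]
  unfold YQ
  obtain ⟨QX, hQX⟩ : ∃ QX, QX = (conjS g⁻¹ Q).subgroupOf (Subgroup.normalizer (U : Set G)) :=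
    ⟨_, rfl⟩
  have hone : ∀ x ∈ ((conjS g⁻¹ Q).subgroupOf (Subgroup.normalizer (U : Set G))).subgroupOf
      (Subgroup.normalizer (((conjS g⁻¹ Q).subgroupOf (Subgroup.normalizer (U : Set G)) :
      Subgroup (Subgroup.normalizer (U : Set G))) : Set (Subgroup.normalizer (U : Set G)))),
      p.comp (io hg) x = 1 := by
    intro x hx
    rw [MonoidHom.comp_apply, hpk, io_coe]
    exact (hQ' _).1 hx
  let φ := QuotientGroup.lift _ (p.comp (io hg)) hone
  have hφ : ∀ x, φ (QuotientGroup.mk' _ x) = p (io hg x) := fun x => rfl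
  have hinj : Function.Injective φ := by
    rw [injective_iff_map_eq_one]
    intro y hy
    obtain ⟨x, rfl⟩ := QuotientGroup.mk'_surjective _ y
    rw [hφ, hpk, io_coe] at hy
    exact (QuotientGroup.eq_one_iff x).2 (Subgroup.mem_subgroupOf.2 ((hQ' _).2 hy))
  have hrange : φ.range = Ag p U g := by
    ext y
    rw [MonoidHom.mem_range, mem_Ag]
    constructor
    · rintro ⟨z, rfl⟩
      obtain ⟨x, rfl⟩ := QuotientGroup.mk'_surjective _ z
      refine ⟨io hg x, ?_, (hφ x).symm⟩
      rw [io_coe, mem_conjX]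
      have e : g⁻¹ * (g * ((x : Subgroup.normalizer (U : Set G)) : G) * g⁻¹) * g =
        ((x : Subgroup.normalizer (U : Set G)) : G) := by group
      rw [e]
      exact (x : Subgroup.normalizer (U : Set G)).2
    · rintro ⟨n, hn, rfl⟩
      have h1 := (mem_conjX g _).1 hn
      have e : g * (g⁻¹ * (n : G) * g) * g⁻¹ = n := by group
      have h2 : (⟨g⁻¹ * n * g, h1⟩ : Subgroup.normalizer (U : Set G)) ∈
          Subgroup.normalizer (((conjS g⁻¹ Q).subgroupOf (Subgroup.normalizer (U : Set G)) :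
      Subgroup (Subgroup.normalizer (U : Set G))) : Set (Subgroup.normalizer (U : Set G))) := by
        rw [mem_NX hg]
        show g * (g⁻¹ * (n : G) * g) * g⁻¹ ∈ _
        rw [e]
        exact n.2
      refine ⟨QuotientGroup.mk' _ ⟨_, h2⟩, ?_⟩
      rw [hφ]
      congr 1
      apply Subtype.ext
      rw [io_coe]
      exact e
  rw [← YY_range ℓ φ hinj hrange (Pg p f g)]
  congr 1
  -- the functions
  have h3 : Pg p f g = push (p.comp (io hg))
      (fun c => Eg Q f g ((io hg c : Subgroup.normalizer (Q : Set G)) : G)) := by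
    unfold Pg
    refine (C2.H92.push_inj p (io hg) (io_inj hg)
      (fun t : Subgroup.normalizer (Q : Set G) => Eg Q f g t) ?_).symm
    intro x hx
    apply Eg_supp
    intro hxC
    apply hx
    have h1 := (mem_conjX g _).1 (cent_le hg hxC)
    have e : g * (g⁻¹ * (x : G) * g) * g⁻¹ = x := by group
    have h2 : (⟨g⁻¹ * x * g, h1⟩ : Subgroup.normalizer (U : Set G)) ∈
        Subgroup.normalizer (((conjS g⁻¹ Q).subgroupOf (Subgroup.normalizer (U : Set G)) :
      Subgroup (Subgroup.normalizer (U : Set G))) : Set (Subgroup.normalizer (U : Set G))) := by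
      rw [mem_NX hg]
      show g * (g⁻¹ * (x : G) * g) * g⁻¹ ∈ _
      rw [e]
      exact x.2
    exact ⟨⟨_, h2⟩, Subtype.ext e⟩
  funext y
  rw [h3]
  have := Fintype.ofFinite (Subgroup.normalizer
    (((conjS g⁻¹ Q).subgroupOf (Subgroup.normalizer (U : Set G)) :
      Subgroup (Subgroup.normalizer (U : Set G))) : Set (Subgroup.normalizer (U : Set G))))
  rw [push_eq, push_eq]
  refine Finset.sum_congr rfl fun x _ => ?_
  have h4 : (p.comp (io hg)) x = φ y ↔ (QuotientGroup.mk' _) x = y := by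
    constructor
    · intro h5
      apply hinj
      rw [hφ]
      exact h5
    · intro h5
      rw [← h5, hφ]
      rfl
  have h5 : Eg Q f g ((io hg x : Subgroup.normalizer (Q : Set G)) : G) =
      br ((conjS g⁻¹ Q).subgroupOf (Subgroup.normalizer (U : Set G)))
        (fun t : Subgroup.normalizer (U : Set G) => f t)
        (x : Subgroup.normalizer (U : Set G)) := by
    have e : g⁻¹ * (g * ((x : Subgroup.normalizer (U : Set G)) : G) * g⁻¹) * g =
        ((x : Subgroup.normalizer (U : Set G)) : G) := by group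
    have h6 : (x : Subgroup.normalizer (U : Set G)) ∈ Subgroup.centralizer
        (((conjS g⁻¹ Q).subgroupOf (Subgroup.normalizer (U : Set G)) :
      Subgroup (Subgroup.normalizer (U : Set G))) : Set (Subgroup.normalizer (U : Set G))) ↔
        g * ((x : Subgroup.normalizer (U : Set G)) : G) * g⁻¹ ∈
          Subgroup.centralizer (Q : Set G) := by
      rw [cent_sub (Q'_le hg), H62.mem_cent_conjS, inv_inv]
    unfold Eg
    rw [io_coe]
    by_cases h7 : g * ((x : Subgroup.normalizer (U : Set G)) : G) * g⁻¹ ∈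
        Subgroup.centralizer (Q : Set G)
    · rw [H66.br_of_mem h7, H66.br_of_mem (h6.2 h7)]
      show f (g⁻¹ * (g * ((x : Subgroup.normalizer (U : Set G)) : G) * g⁻¹) * g) = _
      rw [e]
    · rw [H66.br_of_not_mem h7, H66.br_of_not_mem (fun h8 => h7 (h6.1 h8))]
  rw [h5]
  by_cases h8 : (QuotientGroup.mk' _) x = y
  · rw [if_pos h8, if_pos (h4.2 h8)]
  · rw [if_neg h8, if_neg (fun h9 => h8 (h4.1 h9))]

end yq

/-- TEB -/
theorem teb (ort : OrtStmt) (frs : FrsStmt) : TebStmt := by
  intro ℓ _ M _ hM G _ _ e V γ hL n U hU f hf Q hQ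
  have hF : GoodF ℓ (FF M) := H50.fld ℓ Fact.out M hM
  have hE : En ℓ U Q f := by
    refine ⟨hF, hf.blk, hQ, ?_⟩
    subst hU
    intro g h hg hh hne
    exact ort ℓ M hM G e V γ hL n f hf Q hQ g h hg hh hne
  have hs := QuotientGroup.mk'_surjective (Q.subgroupOf (Subgroup.normalizer (Q : Set G)))
  have hk := QuotientGroup.ker_mk' (Q.subgroupOf (Subgroup.normalizer (Q : Set G)))
  rw [hE.frs_all _ frs hs, finsum_II (U := U) (Q := Q)
    (fun q => YQ ℓ (fun t : Subgroup.normalizer (U : Set G) => f t)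
        ((conjS q.out⁻¹ Q).subgroupOf (Subgroup.normalizer (U : Set G))))]
  refine Finset.sum_congr rfl fun q hq => ?_
  exact hE.yq _ hk (mem_II.1 hq)

end Pool.Agent.PP.T2.H69
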