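import Pool.Agent.Helper69_AT2.Teb1

/-!
# Squad AT2, row TEB, part 2: the images in `N(Q)/Q`
-/

open scoped BigOperators

noncomputable section

namespace Pool.Agent.PP.T2.H69

open Pool.Agent.Helper51_AWC Pool.Agent.Helper79_WRA Pool.Agent.PP Pool.Agent.PP.KF
open Pool.Agent.PP.K9 Pool.Agent.PP.K9.H97 Pool.Agent.PP.H75 Pool.Agent.PP.T3

section pushenv

variable {F G A : Type} [Field F] [Group G] [Finite G] [Group A] [Finite A]
variable {ℓ : ℕ} {U Q : Subgroup G} {f : G → F} (p : Subgroup.normalizer (Q : Set G) →* A)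

/-- the image of the centraliser -/
def Cp : Subgroup A :=
  ((Subgroup.centralizer (Q : Set G)).subgroupOf (Subgroup.normalizer (Q : Set G))).map p

/-- the image of `br_Q (cj g f)` -/
def Pg (f : G → F) (g : G) : A → F :=
  push p (fun t : Subgroup.normalizer (Q : Set G) => Eg Q f g t)

/-- the image of `N(Q) ∩ g X g⁻¹` -/
def Ag (U : Subgroup G) (g : G) : Subgroup A :=
  ((conjS g (Subgroup.normalizer (U : Set G))).subgroupOf
    (Subgroup.normalizer (Q : Set G))).map p

omit [Finite G] [Finite A] in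
theorem mem_Cp {y : A} : y ∈ Cp p ↔ ∃ n : Subgroup.normalizer (Q : Set G),
    (n : G) ∈ Subgroup.centralizer (Q : Set G) ∧ p n = y := by
  unfold Cp
  rw [Subgroup.mem_map]
  rfl

omit [Finite G] [Finite A] in
theorem mem_Ag {g : G} {y : A} : y ∈ Ag p U g ↔ ∃ n : Subgroup.normalizer (Q : Set G),
    (n : G) ∈ conjS g (Subgroup.normalizer (U : Set G)) ∧ p n = y := by
  unfold Ag
  rw [Subgroup.mem_map]
  rfl

omit [Finite G] [Finite A] in
theorem Cp_le_Ag {g : G} (hg : Bt U Q g) : Cp p ≤ Ag p U g := by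
  intro y hy
  obtain ⟨n, hn, rfl⟩ := (mem_Cp p).1 hy
  exact (mem_Ag p).2 ⟨n, cent_le hg hn, rfl⟩

theorem Pg_supp (g : G) : ∀ y, y ∉ Cp p → Pg p f g y = 0 := by
  classical
  intro y hy
  have := Fintype.ofFinite (Subgroup.normalizer (Q : Set G))
  unfold Pg
  rw [push_eq]
  refine Finset.sum_eq_zero fun x _ => ?_
  split_ifs with h
  · exact Eg_supp g _ (fun h' => hy ((mem_Cp p).2 ⟨x, h', h⟩))
  · rfl

theorem cj_Pg (n : Subgroup.normalizer (Q : Set G)) (g : G) :
    cj (p n) (Pg p f g) = Pg p f (n * g) := by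
  unfold Pg
  rw [← H43.push_cj]
  congr 1
  have h1 := cj_Eg (Q := Q) (f := f) n.2 g
  funext t
  exact congrFun h1 (t : G)

theorem En.Pg_coset (h : En ℓ U Q f) {g k : G} (H : g⁻¹ * k ∈ Subgroup.normalizer (U : Set G)) :
    Pg p f g = Pg p f k := by
  unfold Pg
  rw [h.coset H]

theorem En.Pg_fix (h : En ℓ U Q f) {g : G} {n : Subgroup.normalizer (Q : Set G)}
    (hn : (n : G) ∈ conjS g (Subgroup.normalizer (U : Set G))) :
    cj (p n) (Pg p f g) = Pg p f g := by
  rw [cj_Pg]
  apply (h.Pg_coset p _).symm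
  rw [mem_conjX] at hn
  rwa [← mul_assoc]

theorem mulF_Pg (g k : G) : mulF (Pg p f g) (Pg p f k) =
    push p (fun t : Subgroup.normalizer (Q : Set G) => mulF (Eg Q f g) (Eg Q f k) t) := by
  unfold Pg
  rw [← push_mulF, mulF_res (Subgroup.normalizer (Q : Set G)) (Eg Q f k)
    (fun x hx => Eg_supp g x (fun h => hx (Subgroup.centralizer_le_normalizer _ h)))]

theorem En.Pg_idem (h : En ℓ U Q f) {g : G} (hg : Bt U Q g) :
    mulF (Pg p f g) (Pg p f g) = Pg p f g := by
  rw [mulF_Pg, h.idem hg]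
  rfl

theorem En.Pg_orth (h : En ℓ U Q f) {g k : G} (hg : Bt U Q g) (hk : Bt U Q k)
    (H : g⁻¹ * k ∉ Subgroup.normalizer (U : Set G)) : mulF (Pg p f g) (Pg p f k) = 0 := by
  rw [mulF_Pg, h.orth hg hk H]
  exact push_zero p

/-- the index set -/
def II (U Q : Subgroup G) : Finset (G ⧸ Subgroup.normalizer (U : Set G)) :=
  open Classical in
  letI := Fintype.ofFinite (G ⧸ Subgroup.normalizer (U : Set G))
  Finset.univ.filter (fun q => Bt U Q q.out)

theorem mem_II {q : G ⧸ Subgroup.normalizer (U : Set G)} : q ∈ II U Q ↔ Bt U Q q.out := by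
  classical
  unfold II
  rw [Finset.mem_filter]
  exact ⟨fun h => h.2, fun h => ⟨@Finset.mem_univ _ (Fintype.ofFinite _) _, h⟩⟩

theorem finsum_II {V : Type} [AddCommMonoid V] (w : G ⧸ Subgroup.normalizer (U : Set G) → V) :
    ∑ᶠ (q : G ⧸ Subgroup.normalizer (U : Set G)) (_ : Bt U Q q.out), w q = ∑ q ∈ II U Q, w q := by
  rw [← finsum_mem_coe_finset]
  apply finsum_congr
  intro q
  have h1 : Bt U Q q.out = (q ∈ (II U Q : Set (G ⧸ Subgroup.normalizer (U : Set G)))) :=
    propext (mem_II.symm.trans Finset.mem_coe.symm)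
  exact congrArg (fun P : Prop => ∑ᶠ (_ : P), w q) h1

theorem push_sum {ι : Type} (s : Finset ι) (a : ι → Subgroup.normalizer (Q : Set G) → F) :
    push p (∑ i ∈ s, a i) = ∑ i ∈ s, push p (a i) := by
  classical
  induction s using Finset.induction_on with
  | empty => rw [Finset.sum_empty, Finset.sum_empty]; exact push_zero p
  | insert i s hi ih => rw [Finset.sum_insert hi, Finset.sum_insert hi, H43.push_add, ih]

theorem push_brU : push p (fun t : Subgroup.normalizer (Q : Set G) => brU U Q f t) =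
    ∑ q ∈ II U Q, Pg p f q.out := by
  have h1 : (fun t : Subgroup.normalizer (Q : Set G) => brU U Q f t) =
      ∑ q ∈ II U Q, fun t : Subgroup.normalizer (Q : Set G) => Eg Q f q.out t := by
    funext t
    rw [Finset.sum_apply]
    exact finsum_II (fun q => Eg Q f q.out t)
  rw [h1, push_sum]
  rfl

theorem En.out_ne {q k : G ⧸ Subgroup.normalizer (U : Set G)} (hqk : q ≠ k) :
    q.out⁻¹ * k.out ∉ Subgroup.normalizer (U : Set G) := by
  intro h
  apply hqk
  rw [← QuotientGroup.out_eq' q, ← QuotientGroup.out_eq' k]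
  exact QuotientGroup.eq.2 h

/-- products with the sum -/
theorem En.mul_sum (h : En ℓ U Q f) {q : G ⧸ Subgroup.normalizer (U : Set G)}
    (hq : q ∈ II U Q) : mulF (∑ k ∈ II U Q, Pg p f k.out) (Pg p f q.out) = Pg p f q.out := by
  apply ma_injective
  rw [ma_mul, ma_sum, Finset.sum_mul, Finset.sum_eq_single_of_mem q hq]
  · rw [← ma_mul, h.Pg_idem p (mem_II.1 hq)]
  · intro k hk hkq
    rw [← ma_mul, h.Pg_orth p (mem_II.1 hk) (mem_II.1 hq) (En.out_ne hkq), ma_zero]

theorem En.sum_idem (h : En ℓ U Q f) (hp : Function.Surjective p) :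
    IsIdem (∑ k ∈ II U Q, Pg p f k.out) := by
  constructor
  · intro x y
    obtain ⟨n, rfl⟩ := hp y
    have h1 : cj (p n)⁻¹ (∑ k ∈ II U Q, Pg p f k.out) = ∑ k ∈ II U Q, Pg p f k.out := by
      rw [← map_inv]
      obtain ⟨m, hm⟩ : ∃ m, m = n⁻¹ := ⟨_, rfl⟩
      rw [← hm]
      have h2 : cj (p m) (∑ k ∈ II U Q, Pg p f k.out) =
          ∑ k ∈ II U Q, cj (p m) (Pg p f k.out) := by
        funext z
        rw [Finset.sum_apply]
        show (∑ k ∈ II U Q, Pg p f k.out) _ = _
        rw [Finset.sum_apply]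
        rfl
      rw [h2]
      refine Finset.sum_bij (fun k _ => (m : G) • k) ?_ ?_ ?_ ?_
      · intro k hk
        rw [mem_II] at hk ⊢
        have h3 : ((m : G) * k.out)⁻¹ * ((m : G) • k).out ∈ Subgroup.normalizer (U : Set G) := by
          rw [← QuotientGroup.eq, QuotientGroup.out_eq']
          have h4 : (((m : G) * k.out : G) : G ⧸ Subgroup.normalizer (U : Set G)) =
              (m : G) • ((k.out : G) : G ⧸ Subgroup.normalizer (U : Set G)) := rfl
          rw [h4, QuotientGroup.out_eq']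
        exact (bt_coset h3).1 ((bt_mul m.2).2 hk)
      · intro a _ b _ hab
        exact smul_left_cancel (m : G) hab
      · intro k hk
        refine ⟨(m : G)⁻¹ • k, ?_, smul_inv_smul _ _⟩
        rw [mem_II] at hk ⊢
        have h3 : ((m : G)⁻¹ * k.out)⁻¹ * ((m : G)⁻¹ • k).out ∈
            Subgroup.normalizer (U : Set G) := by
          rw [← QuotientGroup.eq, QuotientGroup.out_eq']
          have h4 : (((m : G)⁻¹ * k.out : G) : G ⧸ Subgroup.normalizer (U : Set G)) =
              (m : G)⁻¹ • ((k.out : G) : G ⧸ Subgroup.normalizer (U : Set G)) := rfl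
          rw [h4, QuotientGroup.out_eq']
        exact (bt_coset h3).1 ((bt_mul (inv_mem m.2)).2 hk)
      · intro k hk
        rw [cj_Pg]
        apply h.Pg_coset
        rw [← QuotientGroup.eq, QuotientGroup.out_eq']
        have h4 : (((m : G) * k.out : G) : G ⧸ Subgroup.normalizer (U : Set G)) =
            (m : G) • ((k.out : G) : G ⧸ Subgroup.normalizer (U : Set G)) := rfl
        rw [h4, QuotientGroup.out_eq']
    have h5 := congrFun h1 x
    have h6 : cj (p n)⁻¹ (∑ k ∈ II U Q, Pg p f k.out) x =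
        (∑ k ∈ II U Q, Pg p f k.out) (p n * x * (p n)⁻¹) := by
      unfold cj
      rw [inv_inv]
    rw [← h6, h5]
  · apply ma_injective
    rw [ma_mul]
    conv_lhs =>
      rw [ma_sum (II U Q) (fun k => Pg p f k.out), Finset.mul_sum]
    rw [ma_sum]
    refine Finset.sum_congr rfl fun q hq => ?_
    have h1 := congrArg ma (h.mul_sum p hq)
    rw [ma_mul, ma_sum] at h1
    exact h1

theorem En.ixP (h : En ℓ U Q f) {g : G} (hg : Bt U Q g) : Ix (Cp p) (Pg p f g) := by
  refine ⟨Pg_supp p g, ?_, ?_⟩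
  · intro x y
    obtain ⟨n, hn, hny⟩ := (mem_Cp p).1 y.2
    have h1 := (cj_eq_iff _ _).1 (h.Pg_fix p (cent_le hg hn)) (x : A)
    rw [hny] at h1
    exact h1
  · rw [← mulF_res (Cp p) _ (Pg_supp p g), h.Pg_idem p hg]

/-- the stabiliser of a block under `E_g` -/
theorem En.stab_le (h : En ℓ U Q f) (hp : Function.Surjective p) {g : G} (hg : Bt U Q g)
    {b : A → F} (hb : b ≠ 0) (hgb : mulF (Pg p f g) b = b) : stabF b ≤ Ag p U g := by
  intro α hα
  obtain ⟨n, rfl⟩ := hp α
  rw [mem_Ag]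
  refine ⟨n, ?_, rfl⟩
  by_contra hn
  apply hb
  have h1 : cj (p n) b = b := (cj_eq_iff _ _).2 hα
  have h2 : mulF (Pg p f (n * g)) b = b := by
    rw [← cj_Pg]
    conv_lhs => rw [← h1]
    rw [← cj_mulF, hgb, h1]
  have h3 : mulF (Pg p f (n * g)) (Pg p f g) = 0 := by
    apply h.Pg_orth p ((bt_mul n.2).2 hg) hg
    intro h4
    apply hn
    rw [mem_conjX]
    have h5 := inv_mem h4
    have e : (((n : G) * g)⁻¹ * g)⁻¹ = g⁻¹ * n * g := by group
    rwa [e] at h5
  rw [← h2, ← hgb, ← H20.mulF_assoc, h3, mulF_zero_left]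

/-- a block under `E` is under one of the `E_q` -/
theorem En.exists_q (h : En ℓ U Q f) {b : A → F} (hb : Bx (Cp p) b)
    (hE : mulF (∑ k ∈ II U Q, Pg p f k.out) b = b) :
    ∃ q ∈ II U Q, mulF (Pg p f q.out) b = b := by
  by_contra hcon
  push Not at hcon
  apply hb.ne
  rw [← hE]
  apply ma_injective
  rw [ma_mul, ma_sum, Finset.sum_mul, ma_zero]
  refine Finset.sum_eq_zero fun q hq => ?_
  have h1 := h.ixP p (mem_II.1 hq)
  rw [← ma_mul]
  rcases hb.dich' h1 with h2 | h2
  · rw [hb.ix.comm h1] at h2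
    exact absurd h2 (hcon q hq)
  · rw [hb.ix.comm h1] at h2
    rw [h2, ma_zero]

theorem En.uniq_q (h : En ℓ U Q f) {b : A → F} (hb : b ≠ 0)
    {q k : G ⧸ Subgroup.normalizer (U : Set G)} (hq : q ∈ II U Q) (hk : k ∈ II U Q)
    (h1 : mulF (Pg p f q.out) b = b) (h2 : mulF (Pg p f k.out) b = b) : q = k := by
  by_contra hne
  apply hb
  have h3 := h.Pg_orth p (mem_II.1 hq) (mem_II.1 hk) (En.out_ne hne)
  rw [← h1, ← h2, ← H20.mulF_assoc, h3, mulF_zero_left]

theorem En.under_q (h : En ℓ U Q f) {b : A → F}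
    {q : G ⧸ Subgroup.normalizer (U : Set G)} (hq : q ∈ II U Q)
    (h1 : mulF (Pg p f q.out) b = b) : mulF (∑ k ∈ II U Q, Pg p f k.out) b = b := by
  conv_lhs => rw [← h1]
  rw [← H20.mulF_assoc, h.mul_sum p hq, h1]

end pushenv

end Pool.Agent.PP.T2.H69
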