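import Pool.Agent.AT2.Stmts
import Pool.Agent.Helper66_DF.FinE

/-!
FN3: the final theorem of the squad AT2, inertial index smaller than `ℓ`.
-/

open scoped BigOperators

noncomputable section

namespace Pool.Agent.PP.T2.H69

open Pool.Agent.Helper51_AWC Pool.Agent.Helper79_WRA Pool.Agent.PP Pool.Agent.PP.KF
open Pool.Agent.PP.K9 Pool.Agent.PP.K9.H97 Pool.Agent.PP.H75 Pool.Agent.PP.T3

attribute [local instance] Ideal.Quotient.field

/-- the centraliser of `V` is contained in the inertial group of `γ` -/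
theorem cent_le_Tg {ℓ : ℕ} {F : Type} [Field F] {G : Type} [Group G] [Finite G] {e : G → F}
    {V : Subgroup G} {γ : G → F} (h : Ld ℓ e V γ) :
    Subgroup.centralizer (V : Set G) ≤ Tg V γ := by
  intro c hc
  refine Subgroup.mem_inf.2 ⟨?_, ?_⟩
  · rw [Subgroup.mem_normalizer_iff]
    intro x
    rw [Subgroup.mem_centralizer_iff] at hc
    constructor
    · intro hx
      have h1 := hc x hx
      rw [← h1, mul_inv_cancel_right]
      exact hx
    · intro hx
      have h1 := hc _ hx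
      have h2 : x = c⁻¹ * (c * x * c⁻¹) * c := by group
      have h3 : c⁻¹ * (c * x * c⁻¹) * c = c * x * c⁻¹ := by
        rw [mul_assoc, h1, inv_mul_cancel_left]
      rw [h2, h3]
      exact hx
  · exact (cj_eq_iff _ _).1 (h.gam.ix.inv hc)


/-- QT1 and QT2 together, with the explicit defect group -/
theorem qtx (hQT1 : Qt1Stmt) (hLCJ : LcjStmt) (hQT2 : Qt2Stmt) (ℓ : ℕ) [Fact ℓ.Prime]
    (M : Ideal (integralClosure ℤ ℂ)) [M.IsMaximal] (hM : (ℓ : integralClosure ℤ ℂ) ∈ M)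
    (G : Type) [Group G] [Finite G] (e : G → FF M) (V : Subgroup G) (γ : G → FF M)
    (hL : Ld ℓ e V γ) (Q : Subgroup G) (hQ : IsPGroup ℓ Q) (A : Type) [Group A] [Finite A]
    (p : Subgroup.normalizer (Q : Set G) →* A) (hp : Function.Surjective p)
    (hker : p.ker = Q.subgroupOf (Subgroup.normalizer (Q : Set G))) (f : A → FF M) (hf : IsBlk f)
    (hff : mulF (push p (fun t : Subgroup.normalizer (Q : Set G) => br Q e t)) f = f) :
    ∃ (k : G) (γ' : A → FF M), Q ≤ conjS k V ∧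
      conjS k V ≤ Subgroup.normalizer (Q : Set G) ∧
      Ld ℓ f (((conjS k V).subgroupOf (Subgroup.normalizer (Q : Set G))).map p) γ' ∧
      Nat.card (((conjS k V).subgroupOf (Subgroup.normalizer (Q : Set G))).map p) *
        Nat.card Q = Nat.card V ∧
      ix (((conjS k V).subgroupOf (Subgroup.normalizer (Q : Set G))).map p) γ' ≤ ix V γ := by
  have hF : GoodF ℓ (FF M) := H50.fld ℓ Fact.out M hM
  obtain ⟨k, hk, hT⟩ := hQT1 ℓ M hM G e V γ hL Q hQ A p hp hker f hf hff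
  obtain ⟨hL', hix⟩ := hLCJ ℓ (FF M) hF G e V γ hL k
  obtain ⟨γ', hγ', hix'⟩ := hQT2 ℓ M hM G e (conjS k V) (cj k γ) hL' Q hk A p hp hker f hf hff hT
  have hcard : Nat.card (conjS k V) = Nat.card V :=
    (Nat.card_congr (V.equivMapOfInjective (MulAut.conj k).toMonoidHom
      (MulAut.conj k).injective).toEquiv).symm
  have hVN : conjS k V ≤ Subgroup.normalizer (Q : Set G) := by
    intro v hv
    rw [Subgroup.mem_normalizer_iff]
    intro h
    have hab := hL'.ab
    constructor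
    · intro hh
      rw [hab v hv h (hk hh), mul_inv_cancel_right]
      exact hh
    · intro hh
      have h1 := hab v hv _ (hk hh)
      have h2 : v * h = v * (v * h * v⁻¹) := by
        rw [h1]
        group
      rw [mul_left_cancel h2]
      exact hh
  refine ⟨k, γ', hk, hVN, hγ', ?_, hix'.trans hix.le⟩
  obtain ⟨W, hW⟩ : ∃ W : Subgroup (Subgroup.normalizer (Q : Set G)),
      W = (conjS k V).subgroupOf (Subgroup.normalizer (Q : Set G)) := ⟨_, rfl⟩
  have hWc : Nat.card W = Nat.card (conjS k V) := by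
    rw [hW]
    exact Nat.card_congr (Subgroup.subgroupOfEquivOfLe hVN).toEquiv
  have hkW : p.ker ≤ W := by
    rw [hker, hW]
    exact Subgroup.comap_mono hk
  have hQc : Nat.card p.ker = Nat.card Q := by
    rw [hker]
    exact Nat.card_congr (Subgroup.subgroupOfEquivOfLe Subgroup.le_normalizer).toEquiv
  rw [← hW, ← hcard, ← hWc, ← hQc, mul_comm]
  have h1 : Nat.card (p.ker.subgroupOf W) * (p.ker.subgroupOf W).index = Nat.card W :=
    Subgroup.card_mul_index _
  have h2 : Nat.card (p.ker.subgroupOf W) = Nat.card p.ker :=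
    Nat.card_congr (Subgroup.subgroupOfEquivOfLe hkW).toEquiv
  have h3 : (p.ker.subgroupOf W).index = Nat.card (W.map p) := by
    have h4 : (p.comp W.subtype).ker = p.ker.subgroupOf W := rfl
    rw [← h4, Subgroup.index_ker]
    congr 1
    rw [MonoidHom.range_comp, Subgroup.range_subtype]
  rw [← h3, ← h2]
  exact h1

theorem fn3 (hP : PsgStmt) (hF : FltStmt) (hQ1 : Qt1Stmt) (hLCJ : LcjStmt) (hQ2 : Qt2Stmt)
    (hT : T2aStmt) : Fn3Stmt := by
  intro ℓ hfact M _ hM h2l G _ _ hc χ hχ D hD hab a ha hxa hxb hDc θ hθ hI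
  have hℓ := hfact.out
  have hGF : GoodF ℓ (FF M) := H50.fld ℓ hℓ M hM
  obtain ⟨e, he, h1, h2⟩ := H50.bid ℓ hℓ M hM G χ hχ
  have hn : (opCore ℓ G).Normal := H75.opCore_normal (A := G) ℓ
  obtain ⟨p, hp⟩ : ∃ p : G →* G ⧸ opCore ℓ G, p = QuotientGroup.mk' (opCore ℓ G) := ⟨_, rfl⟩
  have hker : p.ker = opCore ℓ G := by
    rw [hp]
    exact QuotientGroup.ker_mk' _
  have hsurj : Function.Surjective p := by
    rw [hp]
    exact QuotientGroup.mk'_surjective (opCore ℓ G)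
  have hkp : IsPGroup ℓ p.ker := by
    rw [hker]
    exact H75.opCore_isPGroup hℓ
  have hkc : p.ker ≤ Subgroup.center G := by
    rw [hker]
    exact hc
  have heq := H75.altSum_central H20.nls H20.brm H63.smt H94.nch
    (H50.dic H20.ibn H20.nls H20.brm) hℓ M hM hGF hsurj hker hkp hkc χ hχ e he h1 h2
  have hbf : IsBlk (push p e) := hP ℓ (FF M) hGF G (G ⧸ opCore ℓ G) p hsurj hkc hkp e he
  obtain ⟨γ, hγ, hTg⟩ := hF ℓ M hM G χ hχ e he h1 D hD hab θ hθ
  have hix : ix D γ < ℓ := by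
    have e1 : ix D γ * Nat.card (Subgroup.centralizer (D : Set G)) = Nat.card (Tg D γ) := by
      unfold ix
      rw [mul_comm]
      have := Subgroup.card_mul_index ((Subgroup.centralizer (D : Set G)).subgroupOf (Tg D γ))
      rw [Nat.card_congr (Subgroup.subgroupOfEquivOfLe (cent_le_Tg hγ)).toEquiv] at this
      exact this
    have e2 : (Iner M D θ).ncard = Nat.card (Tg D γ) := by
      rw [← hTg]
      rfl
    rw [e2, ← e1] at hI
    exact Nat.lt_of_mul_lt_mul_right hI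
  -- the normaliser of the core
  obtain ⟨q, hq⟩ : ∃ q : Subgroup.normalizer (opCore ℓ G : Set G) →* G ⧸ opCore ℓ G,
      q = p.comp (Subgroup.normalizer (opCore ℓ G : Set G)).subtype := ⟨_, rfl⟩
  have hnt : Subgroup.normalizer (opCore ℓ G : Set G) = ⊤ :=
    Subgroup.normalizer_eq_top (opCore ℓ G)
  have hqs : Function.Surjective q := by
    intro y
    obtain ⟨x, hx⟩ := hsurj y
    refine ⟨⟨x, hnt ▸ Subgroup.mem_top x⟩, ?_⟩
    rw [hq]
    exact hx
  have hqk : q.ker = (opCore ℓ G).subgroupOf (Subgroup.normalizer (opCore ℓ G : Set G)) := by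
    ext x
    rw [MonoidHom.mem_ker, Subgroup.mem_subgroupOf, hq]
    have h3 : (x : G) ∈ p.ker ↔ (x : G) ∈ opCore ℓ G := by rw [hker]
    rw [← h3, MonoidHom.mem_ker]
    rfl
  have hbr : br (opCore ℓ G) e = e := by
    funext t
    unfold br
    rw [if_pos]
    rw [Subgroup.mem_centralizer_iff]
    intro z hz
    exact (Subgroup.mem_center_iff.1 (hc hz) t).symm
  have hpq : push q (fun t : Subgroup.normalizer (opCore ℓ G : Set G) => br (opCore ℓ G) e t) =
      push p e := by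
    classical
    have := Fintype.ofFinite G
    have := Fintype.ofFinite (Subgroup.normalizer (opCore ℓ G : Set G))
    rw [hbr]
    funext y
    rw [push_eq, push_eq]
    refine Fintype.sum_bijective
      (fun x : Subgroup.normalizer (opCore ℓ G : Set G) => (x : G))
      ⟨Subtype.val_injective, fun g => ⟨⟨g, hnt ▸ Subgroup.mem_top g⟩, rfl⟩⟩ _ _ fun x => ?_
    rw [hq]
    rfl
  have hopp : IsPGroup ℓ (opCore ℓ G) := H75.opCore_isPGroup hℓ
  obtain ⟨k, γ', hk, hkN, hV', hcard, hixle⟩ := qtx hQ1 hLCJ hQ2 ℓ M hM G e D γ hγ (opCore ℓ G) hopp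
    (G ⧸ opCore ℓ G) q hqs hqk (push p e) hbf (by rw [hpq]; exact hbf.1.2)
  obtain ⟨V', hV'e⟩ : ∃ V' : Subgroup (G ⧸ opCore ℓ G), V' =
      ((conjS k D).subgroupOf (Subgroup.normalizer (opCore ℓ G : Set G))).map q := ⟨_, rfl⟩
  rw [← hV'e] at hV' hcard hixle
  have hq1 : ∀ x : Subgroup.normalizer (opCore ℓ G : Set G), q x = 1 ↔ (x : G) ∈ opCore ℓ G := by
    intro x
    rw [← MonoidHom.mem_ker, hqk, Subgroup.mem_subgroupOf]
  have hmem : ∀ y, y ∈ V' → ∃ x ∈ D, ∃ hx : k * x * k⁻¹ ∈ Subgroup.normalizer (opCore ℓ G : Set G),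
      y = q ⟨k * x * k⁻¹, hx⟩ := by
    intro y hy
    rw [hV'e] at hy
    obtain ⟨z, hz, hzy⟩ := Subgroup.mem_map.1 hy
    rw [Subgroup.mem_subgroupOf] at hz
    obtain ⟨x, hx, hxz⟩ := hz
    have hxz' : k * x * k⁻¹ = (z : G) := hxz
    refine ⟨x, hx, hxz' ▸ z.2, ?_⟩
    rw [← hzy]
    congr 1
    exact Subtype.ext hxz'.symm
  have hpow : ∀ (x : G) (n : ℕ), (k * x * k⁻¹) ^ n = k * x ^ n * k⁻¹ := fun x n => conj_pow
  have hconj : ∀ x : G, k * x * k⁻¹ ∈ opCore ℓ G ↔ x ∈ opCore ℓ G := by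
    intro x
    constructor
    · intro h
      have := hn.conj_mem _ h k⁻¹
      have h3 : k⁻¹ * (k * x * k⁻¹) * k⁻¹⁻¹ = x := by group
      rwa [h3] at this
    · intro h
      exact hn.conj_mem _ h k
  have hq2 : ∀ (x : G) (hx : k * x * k⁻¹ ∈ Subgroup.normalizer (opCore ℓ G : Set G)) (n : ℕ),
      q ⟨k * x * k⁻¹, hx⟩ ^ n = 1 ↔ x ^ n ∈ opCore ℓ G := by
    intro x hx n
    rw [← map_pow, hq1, ← hconj (x ^ n), ← hpow]
    rfl
  have hexp : Monoid.exponent V' = ℓ ^ a := by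
    have hd : Monoid.exponent V' ∣ ℓ ^ a := by
      rw [Monoid.exponent_dvd_iff_forall_pow_eq_one]
      rintro ⟨y, hy⟩
      obtain ⟨x, hx, hx', rfl⟩ := hmem y hy
      exact Subtype.ext ((hq2 x hx' _).2 (hxa x hx))
    obtain ⟨j, hj, hje⟩ := (Nat.dvd_prime_pow hℓ).1 hd
    rcases Nat.lt_or_ge j a with hja | hja
    · exfalso
      obtain ⟨x, hx, hxn⟩ := hxb
      have hxk : k * x * k⁻¹ ∈ conjS k D := ⟨x, hx, rfl⟩
      have hxN : k * x * k⁻¹ ∈ Subgroup.normalizer (opCore ℓ G : Set G) := hkN hxk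
      have hyV : q ⟨k * x * k⁻¹, hxN⟩ ∈ V' := by
        rw [hV'e]
        exact Subgroup.mem_map_of_mem _ (Subgroup.mem_subgroupOf.2 hxk)
      have h3 : (⟨q ⟨k * x * k⁻¹, hxN⟩, hyV⟩ : V') ^ ℓ ^ (a - 1) = 1 := by
        have h4 : Monoid.exponent V' ∣ ℓ ^ (a - 1) := by
          rw [hje]
          exact pow_dvd_pow _ (by omega)
        exact (Monoid.exponent_dvd_iff_forall_pow_eq_one.1 h4) _
      have h4 : q ⟨k * x * k⁻¹, hxN⟩ ^ ℓ ^ (a - 1) = 1 := congrArg Subtype.val h3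
      exact hxn ((hq2 x hxN _).1 h4)
    · rw [hje, le_antisymm hj hja]
  have hsmall : Nat.card V' < ℓ ^ (2 * a) := by
    rw [← hcard] at hDc
    exact Nat.lt_of_mul_lt_mul_right hDc
  have hty : Ty ℓ a V' (ix V' γ') := ⟨ha, hexp, hsmall, Or.inl (lt_of_le_of_lt hixle hix)⟩
  have h0 : YY ℓ (⊤ : Subgroup (G ⧸ opCore ℓ G)) (push p e) = 0 :=
    hT ℓ M hM h2l a (G ⧸ opCore ℓ G) (push p e) V' γ' hV' hty
  rw [h0, mul_zero] at heq
  rcases mul_eq_zero.1 heq with h | h
  · exact absurd h (by exact_mod_cast (Nat.card_pos (α := G)).ne')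
  · exact h

end Pool.Agent.PP.T2.H69
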