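import Pool.Agent.AT2.Stmts
import Pool.Agent.Helper62_AT3.LCJ
import Pool.Agent.Helper43_AT3.QT2
import Pool.Agent.Helper97_K9.NZR
import Pool.Agent.Helper79_AT3.FUS
import Pool.Agent.Helper92_C2.DUV

/-!
# Squad AT2, row TEB, part 1
-/

open scoped BigOperators

noncomputable section

namespace Pool.Agent.PP.T2.H69

open Pool.Agent.Helper51_AWC Pool.Agent.Helper79_WRA Pool.Agent.PP Pool.Agent.PP.KF
open Pool.Agent.PP.K9 Pool.Agent.PP.K9.H97 Pool.Agent.PP.H75 Pool.Agent.PP.T3

section fin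

variable {F G : Type} [Field F] [Group G] [Finite G]

/-- a subgroup has only finitely many blocks -/
theorem bx_finite (X : Subgroup G) : {b : G → F | Bx X b}.Finite := by
  have h : LinearIndependent F (fun b : {b : G → F | Bx X b} => (b : G → F)) := by
    rw [linearIndependent_iff']
    intro s g hg b hb
    have h1 : ma (∑ i ∈ s, g i • (i : G → F)) = 0 := by rw [hg, ma_zero]
    rw [ma_sum] at h1
    have h2 : ma (b : G → F) * ∑ i ∈ s, ma (g i • (i : G → F)) = g b • ma (b : G → F) := by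
      rw [Finset.mul_sum, Finset.sum_eq_single_of_mem b hb]
      · rw [ma_smul, mul_smul_comm, ← ma_mul, b.2.mul]
      · intro i _ hi
        rw [ma_smul, mul_smul_comm, ← ma_mul]
        rcases b.2.dich i.2 with h3 | h3
        · exact absurd (Subtype.ext h3).symm hi
        · rw [h3, ma_zero, smul_zero]
    rw [h1, mul_zero] at h2
    rcases smul_eq_zero.1 h2.symm with h3 | h3
    · exact h3
    · exact absurd (ma_injective (h3.trans ma_zero.symm)) b.2.ne
  exact h.setFinite

end fin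

section env

variable {F G : Type} [Field F] [Group G] [Finite G]

/-- the hypotheses of TEB for one subgroup `Q` -/
structure En (ℓ : ℕ) (U Q : Subgroup G) (f : G → F) : Prop where
  hF : GoodF ℓ F
  bx : Bx (Subgroup.normalizer (U : Set G)) f
  pg : IsPGroup ℓ Q
  ort : ∀ g h : G, Bt U Q g → Bt U Q h → conjS g U ≠ conjS h U →
    mulF (br Q (cj g f)) (br Q (cj h f)) = 0

variable {ℓ : ℕ} {U Q : Subgroup G} {f : G → F}

omit [Finite G] in
theorem conjS_mul (g h : G) (D : Subgroup G) : conjS (g * h) D = conjS g (conjS h D) := by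
  ext x
  rw [H62.mem_conjS, H62.mem_conjS, H62.mem_conjS]
  have e : (g * h)⁻¹ * x * (g * h) = h⁻¹ * (g⁻¹ * x * g) * h := by group
  rw [e]

omit [Finite G] in
theorem conjS_norm {D : Subgroup G} {g : G} (hg : g ∈ Subgroup.normalizer (D : Set G)) :
    conjS g D = D := by
  ext x
  rw [H62.mem_conjS]
  exact conj_mem_iff hg x

omit [Finite G] in
theorem conjS_eq_iff (g h : G) (D : Subgroup G) :
    conjS g D = conjS h D ↔ g⁻¹ * h ∈ Subgroup.normalizer (D : Set G) := by
  constructor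
  · intro H
    rw [Subgroup.mem_normalizer_iff]
    intro x
    have h1 : h * x * h⁻¹ ∈ conjS h D ↔ x ∈ D := H62.conjS_mem_iff x
    rw [← H, H62.mem_conjS] at h1
    rw [← h1]
    have e : g⁻¹ * (h * x * h⁻¹) * g = g⁻¹ * h * x * (g⁻¹ * h)⁻¹ := by group
    rw [e]
  · intro H
    have e : h = g * (g⁻¹ * h) := by group
    rw [e, conjS_mul, conjS_norm H]

omit [Finite G] in
/-- `Bt` depends only on the coset -/
theorem bt_coset {g h : G} (H : g⁻¹ * h ∈ Subgroup.normalizer (U : Set G)) :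
    Bt U Q g ↔ Bt U Q h := by
  unfold Bt
  rw [(conjS_eq_iff g h U).2 H]

omit [Finite G] in
theorem bt_mul {n g : G} (hn : n ∈ Subgroup.normalizer (Q : Set G)) :
    Bt U Q (n * g) ↔ Bt U Q g := by
  have key : ∀ (n g : G), n ∈ Subgroup.normalizer (Q : Set G) → Bt U Q g → Bt U Q (n * g) := by
    intro n g hn hg
    obtain ⟨h1, h2⟩ := hg
    refine ⟨?_, ?_⟩
    · rw [conjS_mul]
      intro x hx
      rw [H62.mem_conjS] at hx
      exact (conj_mem_iff hn x).1 (h1 hx)
    · rw [conjS_mul]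
      intro x hx
      rw [H62.mem_cent_conjS]
      exact h2 ((conj_mem_iff hn x).2 hx)
  constructor
  · intro h
    have h1 := key n⁻¹ (n * g) (inv_mem hn) h
    rwa [inv_mul_cancel_left] at h1
  · exact key n g hn

omit [Finite G] in
theorem mem_conjX (g x : G) : x ∈ conjS g (Subgroup.normalizer (U : Set G)) ↔
    g⁻¹ * x * g ∈ Subgroup.normalizer (U : Set G) := H62.mem_conjS

omit [Finite G] in
theorem cent_le {g : G} (hg : Bt U Q g) :
    Subgroup.centralizer (Q : Set G) ≤ conjS g (Subgroup.normalizer (U : Set G)) := by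
  intro x hx
  rw [mem_conjX, ← H62.mem_norm_conjS]
  apply Subgroup.centralizer_le_normalizer
  rw [Subgroup.mem_centralizer_iff] at hx ⊢
  intro y hy
  exact hx y (hg.1 hy)

omit [Finite G] in
theorem Q_le {g : G} (hg : Bt U Q g) : Q ≤ conjS g (Subgroup.normalizer (U : Set G)) := by
  intro x hx
  rw [mem_conjX, ← H62.mem_norm_conjS]
  exact Subgroup.centralizer_le_normalizer _ (hg.2 hx)

/-- `cj g f` is invariant under `g X g⁻¹` -/
theorem En.cjinv (h : En ℓ U Q f) {g x : G}
    (hx : x ∈ conjS g (Subgroup.normalizer (U : Set G))) : cj x (cj g f) = cj g f := by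
  have h1 := h.bx.ix.inv ((mem_conjX g x).1 hx)
  have e : x * g = g * (g⁻¹ * x * g) := by group
  rw [cj_cj, e, ← cj_cj, h1]

/-- the idempotents `br_Q (cj g f)` -/
def Eg (Q : Subgroup G) (f : G → F) (g : G) : G → F := br Q (cj g f)

omit [Finite G] in
theorem Eg_supp (g : G) : ∀ x, x ∉ Subgroup.centralizer (Q : Set G) → Eg Q f g x = 0 :=
  fun _ hx => H66.br_of_not_mem hx

theorem cj_Eg {n : G} (hn : n ∈ Subgroup.normalizer (Q : Set G)) (g : G) :
    cj n (Eg Q f g) = Eg Q f (n * g) := by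
  unfold Eg
  rw [H79.cj_br hn, cj_cj]

theorem En.coset (h : En ℓ U Q f) {g k : G} (H : g⁻¹ * k ∈ Subgroup.normalizer (U : Set G)) :
    Eg Q f g = Eg Q f k := by
  have e : k = g * (g⁻¹ * k) := by group
  unfold Eg
  rw [e, ← cj_cj, h.bx.ix.inv H]

theorem En.idem (h : En ℓ U Q f) {g : G} (hg : Bt U Q g) :
    mulF (Eg Q f g) (Eg Q f g) = Eg Q f g := by
  have hinv : H66.Inv Q (cj g f) := by
    intro x hx
    exact (cj_eq_iff x _).1 (h.cjinv (Q_le hg hx))
  unfold Eg
  rw [← H66.br_mulF h.hF h.pg hinv hinv, ← cj_mulF, h.bx.mul]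

theorem En.orth (h : En ℓ U Q f) {g k : G} (hg : Bt U Q g) (hk : Bt U Q k)
    (H : g⁻¹ * k ∉ Subgroup.normalizer (U : Set G)) : mulF (Eg Q f g) (Eg Q f k) = 0 :=
  h.ort g k hg hk (fun h' => H ((conjS_eq_iff g k U).1 h'))

theorem En.fixE (h : En ℓ U Q f) {g x : G} (hx : x ∈ Subgroup.normalizer (Q : Set G))
    (hx' : x ∈ conjS g (Subgroup.normalizer (U : Set G))) : cj x (Eg Q f g) = Eg Q f g := by
  rw [cj_Eg hx]
  apply (h.coset _).symm
  rw [mem_conjX] at hx'
  rwa [← mul_assoc]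

end env

end Pool.Agent.PP.T2.H69
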