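import Pool.Agent.Helper69_AT2.Teb2

/-!
# Squad AT2, row TEB, part 3: the theorem of Fong and Reynolds in `N(Q)/Q` and in the subgroups
-/

open scoped BigOperators

noncomputable section

namespace Pool.Agent.PP.T2.H69

open Pool.Agent.Helper51_AWC Pool.Agent.Helper79_WRA Pool.Agent.PP Pool.Agent.PP.KF
open Pool.Agent.PP.K9 Pool.Agent.PP.K9.H97 Pool.Agent.PP.H75 Pool.Agent.PP.T3

section sub

variable {F A : Type} [Field F] [Group A] [Finite A] {K C : Subgroup A}

/-- transport of the alternating sum between two descriptions of the same subgroup -/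
theorem YY_range {B : Type} [Group B] [Finite B] (ℓ : ℕ) (φ : B →* A)
    (hφ : Function.Injective φ) {L : Subgroup A} (hL : φ.range = L) (a : A → F) :
    YY ℓ (⊤ : Subgroup B) (fun x => a (φ x)) = YY ℓ (⊤ : Subgroup L) (fun x : L => a x) := by
  have h1 := YY_transport ℓ φ hφ ⊤ a
  have h2 := YY_subgroup ℓ L L le_rfl a
  rw [Subgroup.subgroupOf_self] at h2
  have h3 : (⊤ : Subgroup B).map φ = L := by rw [← hL, MonoidHom.range_eq_map]
  rw [h1, h2, h3, hL]

/-- the stabiliser of the restriction -/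
theorem mem_stab_res (hCK : C ≤ K) {b : A → F} (hb : ∀ x, x ∉ C → b x = 0) (t : K) :
    t ∈ stabF (fun x : K => b x) ↔ (t : A) ∈ stabF b := by
  constructor
  · intro h x
    by_cases hx : x ∈ K
    · exact h ⟨x, hx⟩
    · rw [hb x (fun h' => hx (hCK h')), hb]
      intro h'
      apply hx
      have h3 := K.mul_mem (K.mul_mem (K.inv_mem t.2) (hCK h')) t.2
      have e : (t : A)⁻¹ * (t * x * (t : A)⁻¹) * t = x := by group
      rwa [e] at h3
  · intro h x
    exact h (x : A)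

theorem YY_stab (ℓ : ℕ) (hCK : C ≤ K) {b : A → F} (hb : ∀ x, x ∉ C → b x = 0)
    (hs : stabF b ≤ K) :
    YY ℓ (⊤ : Subgroup (stabF (fun x : K => b x)))
      (fun t : stabF (fun x : K => b x) => b ((t : K) : A)) =
    YY ℓ (⊤ : Subgroup (stabF b)) (fun t : stabF b => b t) := by
  have h1 : (K.subtype.comp (stabF (fun x : K => b x)).subtype).range = stabF b := by
    ext y
    rw [MonoidHom.mem_range]
    constructor
    · rintro ⟨t, rfl⟩
      exact (mem_stab_res hCK hb (t : K)).1 t.2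
    · intro hy
      exact ⟨⟨⟨y, hs hy⟩, (mem_stab_res hCK hb ⟨y, hs hy⟩).2 hy⟩, rfl⟩
  exact YY_range ℓ (K.subtype.comp (stabF (fun x : K => b x)).subtype)
    (K.subtype_injective.comp (Subgroup.subtype_injective _)) h1 b

/-- restriction of a block of `C ≤ K` to `K` -/
theorem bx_res (hCK : C ≤ K) {b : A → F} (hb : Bx C b) :
    Bx (C.subgroupOf K) (fun t : K => b t) := by
  refine ⟨fun x hx => hb.supp x hx, ?_⟩
  exact H20.IsBlk_equiv (Subgroup.subgroupOfEquivOfLe hCK) hb.blk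

theorem bx_ext (hCK : C ≤ K) {b' : K → F} (hb : Bx (C.subgroupOf K) b') :
    Bx C (H75.ext0 K b') := by
  have hs : ∀ x, x ∉ C → H75.ext0 K b' x = 0 := by
    intro x hx
    by_cases hxK : x ∈ K
    · have := ext0_apply K b' ⟨x, hxK⟩
      rw [this]
      exact hb.supp _ hx
    · exact ext0_supp K b' x hxK
  refine ⟨hs, ?_⟩
  have h1 := H20.IsBlk_equiv (Subgroup.subgroupOfEquivOfLe hCK).symm hb.blk
  have h2 : (fun t : C => H75.ext0 K b' t) =
      fun t : C => b' (((Subgroup.subgroupOfEquivOfLe hCK).symm t : C.subgroupOf K) : K) := by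
    funext t
    exact ext0_apply K b' ⟨(t : A), hCK t.2⟩
  rw [h2]
  exact h1

end sub

section frs

variable {F G A : Type} [Field F] [Group G] [Finite G] [Group A] [Finite A]
variable {ℓ : ℕ} {U Q : Subgroup G} {f : G → F} (p : Subgroup.normalizer (Q : Set G) →* A)

/-- the value of a block -/
def WW (ℓ : ℕ) (b : A → F) : ℤ := YY ℓ (⊤ : Subgroup (stabF b)) (fun t : stabF b => b t)

theorem Cp_normal (hp : Function.Surjective p) : (Cp p).Normal := by
  have h1 : ((Subgroup.centralizer (Q : Set G)).subgroupOf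
      (Subgroup.normalizer (Q : Set G))).Normal := by
    refine ⟨fun x hx n => ?_⟩
    rw [Subgroup.mem_subgroupOf] at hx ⊢
    exact (Subgroup.mem_normalizer_iff.1 (H79.norm_cent Q n.2) (x : G)).1 hx
  exact Subgroup.Normal.map h1 p hp

/-- FRS in the subgroup `A_g` -/
theorem En.frs_g [Fact ℓ.Prime] (frs : FrsStmt) (h : En ℓ U Q f) (hp : Function.Surjective p)
    {g : G} (hg : Bt U Q g) :
    ∑ᶠ b ∈ {b : A → F | Bx (Cp p) b ∧ mulF (Pg p f g) b = b}, WW ℓ b =
      YY ℓ (⊤ : Subgroup (Ag p U g)) (fun t : Ag p U g => Pg p f g t) := by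
  obtain ⟨K, hK⟩ : ∃ K, K = Ag p U g := ⟨_, rfl⟩
  have hCK : Cp p ≤ K := by rw [hK]; exact Cp_le_Ag p hg
  have hst : ∀ b : A → F, b ≠ 0 → mulF (Pg p f g) b = b → stabF b ≤ K := by
    rw [hK]
    exact fun b hb hgb => h.stab_le p hp hg hb hgb
  have hfix : ∀ y ∈ K, cj y (Pg p f g) = Pg p f g := by
    rw [hK]
    intro y hy
    obtain ⟨n, hn, rfl⟩ := (mem_Ag p).1 hy
    exact h.Pg_fix p hn
  rw [← hK]
  have hPs := Pg_supp (f := f) p g
  have hPK : ∀ x, x ∉ K → Pg p f g x = 0 := fun x hx => hPs x (fun h' => hx (hCK h'))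
  have hn : ((Cp p).subgroupOf K).Normal := by
    have := Cp_normal p hp
    infer_instance
  have hid : IsIdem (fun t : K => Pg p f g t) := by
    constructor
    · intro x y
      have h1 := (cj_eq_iff _ _).1 (hfix (y : A) y.2) (x : A)
      exact h1
    · rw [← mulF_res K _ hPK, h.Pg_idem p hg]
  have h1 := frs ℓ F h.hF K ((Cp p).subgroupOf K) hn (fun t : K => Pg p f g t) hid
    (fun x hx => hPs x hx)
  rw [h1]
  refine finsum_mem_eq_of_bijOn (s := {b : A → F | Bx (Cp p) b ∧ mulF (Pg p f g) b = b})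
    (t := {b' : K → F | Bx ((Cp p).subgroupOf K) b' ∧ mulF (fun t : K => Pg p f g t) b' = b'})
    (fun b => fun t : K => b t) ⟨?_, ?_, ?_⟩ ?_
  · rintro b ⟨hb1, hb2⟩
    refine ⟨bx_res hCK hb1, ?_⟩
    rw [← mulF_res K b hPK, hb2]
  · rintro b ⟨hb1, -⟩ c ⟨hc1, -⟩ hbc
    exact eq_of_res (fun x hx => hb1.supp x (fun h' => hx (hCK h')))
      (fun x hx => hc1.supp x (fun h' => hx (hCK h'))) hbc
  · rintro b' ⟨hb1, hb2⟩
    have h3 : (fun t : K => H75.ext0 K b' t) = b' := funext (ext0_apply K b')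
    refine ⟨H75.ext0 K b', ⟨bx_ext hCK hb1, ?_⟩, h3⟩
    apply eq_of_res (N := K) (mulF_supp K hPK (ext0_supp K b')) (ext0_supp K b')
    rw [mulF_res K _ hPK, h3, hb2]
  · rintro b ⟨hb1, hb2⟩
    exact (YY_stab ℓ hCK hb1.supp (hst b hb1.ne hb2)).symm

/-- FRS in `A`, compared with the subgroups -/
theorem En.frs_all [Fact ℓ.Prime] (frs : FrsStmt) (h : En ℓ U Q f)
    (hp : Function.Surjective p) :
    YY ℓ (⊤ : Subgroup A) (push p (fun t : Subgroup.normalizer (Q : Set G) => brU U Q f t)) =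
      ∑ q ∈ II U Q, YY ℓ (⊤ : Subgroup (Ag p U q.out)) (fun t : Ag p U q.out => Pg p f q.out t) := by
  rw [push_brU]
  have hsupp : ∀ x, x ∉ Cp p → (∑ k ∈ II U Q, Pg p f k.out) x = 0 := by
    intro x hx
    rw [Finset.sum_apply]
    exact Finset.sum_eq_zero fun q _ => Pg_supp p q.out x hx
  rw [frs ℓ F h.hF A (Cp p) (Cp_normal p hp) _ (h.sum_idem p hp) hsupp]
  have h1 : {b : A → F | Bx (Cp p) b ∧ mulF (∑ k ∈ II U Q, Pg p f k.out) b = b} =
      ⋃ q ∈ (II U Q : Set (G ⧸ Subgroup.normalizer (U : Set G))),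
        {b : A → F | Bx (Cp p) b ∧ mulF (Pg p f q.out) b = b} := by
    ext b
    rw [Set.mem_iUnion₂]
    constructor
    · rintro ⟨hb1, hb2⟩
      obtain ⟨q, hq, hqb⟩ := h.exists_q p hb1 hb2
      exact ⟨q, hq, hb1, hqb⟩
    · rintro ⟨q, hq, hb1, hb2⟩
      exact ⟨hb1, h.under_q p hq hb2⟩
  have h2 : ∑ᶠ (b : A → F) (_ : Bx (Cp p) b ∧ mulF (∑ k ∈ II U Q, Pg p f k.out) b = b),
      YY ℓ (⊤ : Subgroup (stabF b)) (fun t : stabF b => b t) =
      ∑ᶠ b ∈ {b : A → F | Bx (Cp p) b ∧ mulF (∑ k ∈ II U Q, Pg p f k.out) b = b}, WW ℓ b := rfl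
  rw [h2, h1, finsum_mem_biUnion]
  · rw [finsum_mem_coe_finset]
    refine Finset.sum_congr rfl fun q hq => ?_
    exact h.frs_g p frs hp (mem_II.1 hq)
  · intro q hq k hk hne
    rw [Function.onFun, Set.disjoint_left]
    rintro b ⟨hb1, hb2⟩ ⟨-, hb3⟩
    exact hne (h.uniq_q p hb1.ne hq hk hb2 hb3)
  · exact (II U Q).finite_toSet
  · intro q _
    exact (bx_finite (Cp p)).subset (fun b hb => hb.1)

end frs

end Pool.Agent.PP.T2.H69
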